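import Pool.Agent.Q5.MT.Kill
import Pool.Agent.Q5.MT.Det

/-!
# The congruence of Mazur and Tate: cyclic fields suffice if `r < p`

For an elliptic curve of rank `r < p`, the congruence `θ_F ≡ ± L R_F` modulo `I^(r+1)` (with
`θ_F ∈ I^r`) for an abelian field `F` of `p`-power degree is equivalent to the congruences for the
cyclic fields contained in `F`.
-/

set_option autoImplicit false

namespace Pool.Agent.Results.MP_5deabe_nt.CyclicFields

open Pool.Agent.Q5.MT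

section
variable {p : ℕ} [Fact p.Prime] {P : Set ℕ} {a : ℕ → ℤ} {r : ℕ}
  {θ : ∀ m : ℕ, MonoidAlgebra ℤ_[p] (ZMod m)ˣ}
  {b : ∀ m : ℕ, Matrix (Fin r) (Fin r) (MonoidAlgebra ℤ_[p] (ZMod m)ˣ)} {c : ℕ → ℤ_[p]}

theorem lift_of_ker {m n : ℕ} [NeZero m] (h : n ∣ m) {G : Type} [CommGroup G] (q : (ZMod m)ˣ →* G)
    (hq : (ZMod.unitsMap h).ker ≤ q.ker) : ∃ q' : (ZMod n)ˣ →* G, q = q'.comp (ZMod.unitsMap h) := by
  refine ⟨(ZMod.unitsMap h).liftOfRightInverse _
    (Function.rightInverse_surjInv (ZMod.unitsMap_surjective h)) ⟨q, hq⟩, ?_⟩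
  refine MonoidHom.ext fun g => ?_
  exact ((ZMod.unitsMap h).liftOfRightInverse_comp_apply _
    (Function.rightInverse_surjInv (ZMod.unitsMap_surjective h)) ⟨q, hq⟩ g).symm

theorem exists_conductor {m : ℕ} [NeZero m] {C : Type} [CommGroup C] (g : (ZMod m)ˣ →* C) :
    ∃ (f : ℕ) (hf : f ∣ m) (q' : (ZMod f)ˣ →* C), g = q'.comp (ZMod.unitsMap hf) ∧
      ∀ (n : ℕ) (h : n ∣ f), n ≠ f → ¬ (ZMod.unitsMap h).ker ≤ q'.ker := by
  classical
  have hex : ∃ f : ℕ, ∃ hf : f ∣ m, (ZMod.unitsMap hf).ker ≤ g.ker := by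
    refine ⟨m, dvd_rfl, fun u hu => ?_⟩
    rw [MonoidHom.mem_ker, ZMod.unitsMap_self] at hu
    have : u = 1 := hu
    rw [this]
    exact one_mem _
  obtain ⟨hf, hker⟩ := Nat.find_spec hex
  obtain ⟨q', hq'⟩ := lift_of_ker hf g hker
  refine ⟨Nat.find hex, hf, q', hq', fun n h hne hle => ?_⟩
  have hf0 : Nat.find hex ≠ 0 := fun h0 => (NeZero.ne m) (by
    have := hf; rw [h0, zero_dvd_iff] at this; exact this)
  have hlt : n < Nat.find hex := lt_of_le_of_ne (Nat.le_of_dvd (Nat.pos_of_ne_zero hf0) h) hne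
  refine Nat.find_min hex hlt ⟨h.trans hf, fun u hu => ?_⟩
  rw [MonoidHom.mem_ker] at hu ⊢
  rw [← unitsMap_comp' h hf] at hu
  have h2 : ZMod.unitsMap hf u ∈ q'.ker := hle (by rw [MonoidHom.mem_ker]; exact hu)
  rw [hq', MonoidHom.comp_apply]
  exact h2

theorem level_down (hP : ∀ ℓ ∈ P, ℓ.Prime ∧ ℓ ≠ p) (ha : ∀ ℓ ∈ P, ¬ (p : ℤ) ∣ ℓ + 1 - a ℓ)
    (H : IsMazurTate p P a θ b c) {m ℓ : ℕ} (hm : m ∈ Conductors P) (hℓ : ℓ ∈ P)
    (hc : ℓ.Coprime m) {G : Type} [CommGroup G] (q : (ZMod m)ˣ →* G)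
    (h : Congruence θ b c (m * ℓ) (q.comp (ZMod.unitsMap (dvd_mul_right m ℓ)))) :
    Congruence θ b c m q := by
  obtain ⟨N, h1, h2, h3, h4⟩ := level hP H hm hℓ hc q
  set n : ℤ_[p] := (a ℓ : ℤ_[p]) - ℓ - 1 with hn
  have hu : IsUnit n := by
    have e : n = ((a ℓ - ℓ - 1 : ℤ) : ℤ_[p]) := by rw [hn]; push_cast; ring
    rw [e, PadicInt.isUnit_iff]
    by_contra hne
    have h5 := lt_of_le_of_ne (PadicInt.norm_le_one _) hne
    rw [PadicInt.norm_int_lt_one_iff_dvd] at h5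
    refine ha ℓ hℓ ?_
    have : (ℓ : ℤ) + 1 - a ℓ = -(a ℓ - ℓ - 1) := by ring
    rw [this]
    exact (dvd_neg).2 h5
  set y := push q (θ m) with hy
  have hN : ∀ j, y ∈ augIdeal ℤ_[p] G ^ j → (N - n • 1) * y ∈ augIdeal ℤ_[p] G ^ (j + 1) := by
    intro j hj
    rw [pow_succ']
    exact Ideal.mul_mem_mul h1 hj
  have hyj : ∀ j ≤ r, y ∈ augIdeal ℤ_[p] G ^ j := by
    intro j
    induction j with
    | zero => intro _; simp
    | succ j ih =>
      intro hj
      have h5 := ih (by omega)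
      have h6 : N * y ∈ augIdeal ℤ_[p] G ^ r := by
        rw [← h2]
        exact smul_mem' _ h.1
      refine of_smul_mem hu ?_
      have h7 : n • y = N * y - (N - n • 1) * y := by
        rw [sub_mul, smul_mul_assoc, one_mul]
        ring
      rw [h7]
      exact sub_mem (Ideal.pow_le_pow_right hj h6) (hN j h5)
  refine ⟨hyj r le_rfl, of_smul_mem hu ?_⟩
  set D' := ((b (m * ℓ)).map (push (q.comp (ZMod.unitsMap (dvd_mul_right m ℓ))))).det
  set D := ((b m).map (push q)).det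
  have e : n • (y - c m • D) = (ℓ : ℤ_[p]) • (push (q.comp (ZMod.unitsMap (dvd_mul_right m ℓ)))
      (θ (m * ℓ)) - c (m * ℓ) • D') - (N - n • 1) * y + (n * c m) • (D' - D) := by
    rw [smul_sub (ℓ : ℤ_[p]), h2, smul_smul (ℓ : ℤ_[p]), H.const m hm ℓ hℓ hc]
    simp only [Algebra.smul_def, map_mul, mul_one]
    ring
  rw [e]
  exact add_mem (sub_mem (smul_mem' _ h.2) (hN r (hyj r le_rfl))) (smul_mem' _ h3)

theorem push_diff {m : ℕ} {G G' : Type} [CommGroup G] [CommGroup G'] (q : (ZMod m)ˣ →* G)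
    (f : G →* G') (x : ℤ_[p]) :
    push f (push q (θ m) - x • ((b m).map (push q)).det) =
      push (f.comp q) (θ m) - x • ((b m).map (push (f.comp q))).det := by
  rw [map_sub, push_push, push_smul, RingHom.map_det]
  congr 3
  ext i j
  simp only [Matrix.map_apply, RingHom.mapMatrix_apply, push_push]

/-- the congruences for the images in cyclic groups -/
theorem image_congruence (L : ∀ m : ℕ, m ∈ Conductors P → ∀ (f : ℕ) (hf : f ∣ m) {G : Type}
      [CommGroup G] (q : (ZMod f)ˣ →* G),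
      Congruence θ b c m (q.comp (ZMod.unitsMap hf)) ↔ Congruence θ b c f q)
    {m : ℕ} (hm : m ∈ Conductors P) {G : Type} [CommGroup G]
    {q : (ZMod m)ˣ →* G} (hq : IsField p m q)
    (h : ∀ (f : ℕ) (hf : f ∣ m) (C : Type) [CommGroup C] [IsCyclic C] (q' : (ZMod f)ˣ →* C),
        IsField p f q' → (∃ κ : G →* C, κ.comp q = q'.comp (ZMod.unitsMap hf)) →
          Congruence θ b c f q') {D : Type} [CommGroup D] [IsCyclic D] (φ : G →* D) :
    Congruence θ b c m (φ.comp q) := by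
  have hm0 : NeZero m := ⟨hm.1.ne_zero⟩
  obtain ⟨f, hf, q', h1, h2⟩ := exists_conductor (φ.rangeRestrict.comp q)
  have hsurj : Function.Surjective q' := by
    intro x
    obtain ⟨u, hu⟩ := (φ.rangeRestrict_surjective.comp hq.surj) x
    refine ⟨ZMod.unitsMap hf u, ?_⟩
    have := DFunLike.congr_fun h1 u
    exact this.symm.trans hu
  have h3 : IsField p f q' :=
    ⟨hsurj, hq.pgroup.of_surjective φ.rangeRestrict φ.rangeRestrict_surjective, h2⟩
  have h4 := h f hf φ.range q' h3 ⟨φ.rangeRestrict, h1⟩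
  rw [← L m hm f hf q', ← h1] at h4
  have h5 := push_congruence _ φ.range.subtype h4
  have e : φ.comp q = φ.range.subtype.comp (φ.rangeRestrict.comp q) := rfl
  rw [e]
  exact h5

theorem level_iff (hP : ∀ ℓ ∈ P, ℓ.Prime ∧ ℓ ≠ p) (ha : ∀ ℓ ∈ P, ¬ (p : ℤ) ∣ ℓ + 1 - a ℓ)
    (H : IsMazurTate p P a θ b c) : ∀ m : ℕ, m ∈ Conductors P → ∀ (f : ℕ) (hf : f ∣ m) {G : Type}
    [CommGroup G] (q : (ZMod f)ˣ →* G),
    Congruence θ b c m (q.comp (ZMod.unitsMap hf)) ↔ Congruence θ b c f q := by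
  intro m
  induction m using Nat.strong_induction_on with
  | _ m ih =>
  intro hm f hf G _ q
  by_cases hfm : f = m
  · subst hfm
    rw [ZMod.unitsMap_self, MonoidHom.comp_id]
  obtain ⟨d, hd⟩ := id hf
  have hd1 : d ≠ 1 := by
    rintro rfl
    exact hfm (by rw [hd, mul_one])
  obtain ⟨ℓ, h1, h2⟩ := Nat.exists_prime_and_dvd hd1
  obtain ⟨e, he⟩ := h2
  have hk : f * e * ℓ = m := by rw [hd, he]; ring
  subst hk
  have hc : ℓ.Coprime (f * e) := (Nat.coprime_of_squarefree_mul hm.1).symm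
  have hkm : f * e ∈ Conductors P := cond_dvd hm (dvd_mul_right _ ℓ)
  have hℓ : ℓ ∈ P := hm.2 ℓ h1 (dvd_mul_left ℓ _)
  have hlt : f * e < f * e * ℓ := by
    have h0 : 0 < f * e := Nat.pos_of_ne_zero fun h => hm.1.ne_zero (by rw [h, zero_mul])
    exact lt_mul_of_one_lt_right h0 h1.one_lt
  rw [← ih (f * e) hlt hkm f (dvd_mul_right f e) q]
  have e1 : q.comp (ZMod.unitsMap hf) = (q.comp (ZMod.unitsMap (dvd_mul_right f e))).comp
      (ZMod.unitsMap (dvd_mul_right (f * e) ℓ)) := by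
    rw [MonoidHom.comp_assoc, ZMod.unitsMap_comp]
  rw [e1]
  exact ⟨level_down hP ha H hkm hℓ hc _, level_up hP H hkm hℓ hc _⟩

end

/-- **Cyclic fields suffice if `r < p`.** Let `p` be a prime number, `P` a set of primes `ℓ ≠ p` with
`ℓ + 1 - a_ℓ` prime to `p`, and `θ_m`, `b_m`, `c_m` as in `IsMazurTate`, with matrices of size `r < p`.
Let `F` be an abelian field whose degree is a power of `p` and whose conductor `m` is a product of
distinct primes of `P`. The congruence of Mazur and Tate holds for `F` if and only if it holds for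
all cyclic fields `F' ⊆ F`: for all `f ∣ m` and all homomorphisms `q'` from `(Z/f)ˣ` onto a cyclic
`p`-group `C` which belong to a field of conductor `f` contained in `F`. -/
theorem result (p : ℕ) [Fact p.Prime] (P : Set ℕ) (hP : ∀ ℓ ∈ P, ℓ.Prime ∧ ℓ ≠ p) (a : ℕ → ℤ)
    (ha : ∀ ℓ ∈ P, ¬ (p : ℤ) ∣ ℓ + 1 - a ℓ) (r : ℕ) (hr : r < p)
    (θ : ∀ m : ℕ, MonoidAlgebra ℤ_[p] (ZMod m)ˣ)
    (b : ∀ m : ℕ, Matrix (Fin r) (Fin r) (MonoidAlgebra ℤ_[p] (ZMod m)ˣ)) (c : ℕ → ℤ_[p])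
    (H : IsMazurTate p P a θ b c) (m : ℕ) (hm : m ∈ Conductors P) (G : Type) [CommGroup G]
    (q : (ZMod m)ˣ →* G) (hq : IsField p m q) :
    Congruence θ b c m q ↔
      ∀ (f : ℕ) (hf : f ∣ m) (C : Type) [CommGroup C] [IsCyclic C] (q' : (ZMod f)ˣ →* C),
        IsField p f q' → (∃ κ : G →* C, κ.comp q = q'.comp (ZMod.unitsMap hf)) →
          Congruence θ b c f q' := by
  have hm0 : NeZero m := ⟨hm.1.ne_zero⟩
  constructor
  · rintro h f hf C _ _ q' _ ⟨κ, hκ⟩
    rw [← level_iff hP ha H m hm f hf q', ← hκ]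
    exact push_congruence q κ h
  · intro h
    have hfin : Finite G := Finite.of_surjective q hq.surj
    have key : ∀ (k : ℕ) (φ : G →* Multiplicative (ZMod (p ^ k))),
        Congruence θ b c m (φ.comp q) := fun k φ =>
      image_congruence (fun m hm f hf _ _ q => level_iff hP ha H m hm f hf q) hm hq h φ
    refine ⟨detect hq.pgroup hr.le _ fun k φ => ?_, detect hq.pgroup hr _ fun k φ => ?_⟩
    · rw [push_push]
      exact (key k φ).1
    · have h6 := (key k φ).2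
      have h7 := push_diff (θ := θ) (b := b) q φ (c m)
      exact h7 ▸ h6

end Pool.Agent.Results.MP_5deabe_nt.CyclicFields
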