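import Pool.Agent.Q5.MT.Kill

/-!
# The congruence of Mazur and Tate: fields whose conductor has at most `r` prime factors suffice

For an elliptic curve of rank `r`, the congruence `θ_F ≡ ± L R_F` modulo `I^(r+1)` (with
`θ_F ∈ I^r`) for all real abelian fields `F` of `p`-power degree follows from the congruence for the
fields whose conductor is a product of at most `r` primes.
-/

set_option autoImplicit false

namespace Pool.Agent.Results.MP_5deabe_nt.FewPrimesInConductor

open Pool.Agent.Q5.MT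

section
variable {p : ℕ} [Fact p.Prime] {P : Set ℕ} {a : ℕ → ℤ} {r : ℕ}
  {θ : ∀ m : ℕ, MonoidAlgebra ℤ_[p] (ZMod m)ˣ}
  {b : ∀ m : ℕ, Matrix (Fin r) (Fin r) (MonoidAlgebra ℤ_[p] (ZMod m)ˣ)} {c : ℕ → ℤ_[p]}

theorem lift_of_ker {m n : ℕ} [NeZero m] (h : n ∣ m) {G : Type} [CommGroup G] (q : (ZMod m)ˣ →* G)
    (hq : (ZMod.unitsMap h).ker ≤ q.ker) : ∃ q' : (ZMod n)ˣ →* G, q = q'.comp (ZMod.unitsMap h) := by
  refine ⟨(ZMod.unitsMap h).liftOfRightInverse _
    (Function.rightInverse_surjInv (ZMod.unitsMap_surjective h)) ⟨q, hq⟩, ?_⟩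
  refine MonoidHom.ext fun g => ?_
  exact ((ZMod.unitsMap h).liftOfRightInverse_comp_apply _
    (Function.rightInverse_surjInv (ZMod.unitsMap_surjective h)) ⟨q, hq⟩ g).symm

theorem main (hP : ∀ ℓ ∈ P, ℓ.Prime ∧ ℓ ≠ p) (H : IsMazurTate p P a θ b c)
    (h : ∀ m ∈ Conductors P, m.primeFactors.card ≤ r →
      ∀ (G : Type) [CommGroup G] (q : (ZMod m)ˣ →* G), IsField p m q → Congruence θ b c m q) :
    ∀ m : ℕ, m ∈ Conductors P → ∀ (G : Type) [CommGroup G] (q : (ZMod m)ˣ →* G), IsPGroup p G →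
      Congruence θ b c m q := by
  intro m
  induction m using Nat.strong_induction_on with
  | _ m ih =>
  intro hm G _ q hG
  have hm0 : m ≠ 0 := hm.1.ne_zero
  have : NeZero m := ⟨hm0⟩
  -- fields of smaller conductor
  have step : ∀ (k ℓ : ℕ) (hk : k * ℓ = m), ℓ.Prime → ∀ q' : (ZMod m)ˣ →* G,
      (ZMod.unitsMap (Dvd.intro _ hk)).ker ≤ q'.ker → Congruence θ b c m q' := by
    intro k ℓ hk hℓ q' hq'
    subst hk
    obtain ⟨q'', rfl⟩ := lift_of_ker (Dvd.intro _ rfl) q' hq'
    have hc : ℓ.Coprime k := (Nat.coprime_of_squarefree_mul hm.1).symm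
    have hk : k ∈ Conductors P := cond_dvd hm (dvd_mul_right k ℓ)
    have hlt : k < k * ℓ := by
      have h1 : 0 < k := Nat.pos_of_ne_zero fun h => hm0 (by rw [h, zero_mul])
      exact lt_mul_of_one_lt_right h1 hℓ.one_lt
    exact level_up hP H hk (hm.2 ℓ hℓ (dvd_mul_left ℓ k)) hc q'' (ih k hlt hk G q'' hG)
  by_cases hcond : ∀ (n : ℕ) (h : n ∣ m), n ≠ m → ¬ (ZMod.unitsMap h).ker ≤ q.ker
  · by_cases hr : m.primeFactors.card ≤ r
    · -- few primes
      have h1 : IsField p m q.rangeRestrict := by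
        refine ⟨q.rangeRestrict_surjective, hG.to_subgroup q.range, fun n hn hne hle => ?_⟩
        rw [MonoidHom.ker_rangeRestrict] at hle
        exact hcond n hn hne hle
      have h2 := push_congruence (q.rangeRestrict) q.range.subtype (h m hm hr q.range q.rangeRestrict h1)
      exact h2
    · -- many primes
      obtain ⟨L, h1, h2, h3⟩ := exists_list hm.1
      have key : ∀ (q' : (ZMod m)ˣ →* G), ∀ e ∈ L, Congruence θ b c m (q'.comp e) := by
        intro q' e he
        obtain ⟨ℓ, h4, h5, h6⟩ := h3 e he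
        obtain ⟨k, hk⟩ : ∃ k, k * ℓ = m := by
          obtain ⟨k, hk⟩ := h5
          exact ⟨k, by rw [hk, mul_comm]⟩
        exact step k ℓ hk h4 _ (kills_ker hm.1 h4 h5 h6 hk q')
      have hlen : r + 1 ≤ L.length := by omega
      refine ⟨?_, ?_⟩
      · exact incl_excl L h2 (by omega) (θ m) (fun q' e he => (key q' e he).1) q
      · have h4 := incl_excl L h2 hlen (θ m - c m • (b m).det) (fun q' e he => by
          have := (key q' e he).2
          rw [map_sub, push_smul, RingHom.map_det]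
          exact this) q
        rw [map_sub, push_smul, RingHom.map_det] at h4
        exact h4
  · push Not at hcond
    obtain ⟨n, hn, hne, hle⟩ := hcond
    obtain ⟨d, hd⟩ := hn
    have hd1 : d ≠ 1 := by
      rintro rfl
      exact hne (by rw [hd, mul_one])
    obtain ⟨ℓ, h1, h2⟩ := Nat.exists_prime_and_dvd hd1
    obtain ⟨e, he⟩ := h2
    have hk : n * e * ℓ = m := by rw [hd, he]; ring
    refine step (n * e) ℓ hk h1 q (le_trans ?_ hle)
    intro g hg
    rw [MonoidHom.mem_ker] at hg ⊢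
    rw [← unitsMap_comp' (dvd_mul_right n e) (Dvd.intro _ hk), hg, map_one]

end

/-- **Fields whose conductor has at most `r` prime factors suffice.** Let `p` be a prime number, `P` a
set of primes different from `p`, and `θ_m`, `b_m`, `c_m` as in `IsMazurTate`, with matrices of size
`r`. The congruence of Mazur and Tate (`Congruence`) holds for all abelian fields `F` whose degree is a
power of `p` and whose conductor is a product of distinct primes of `P` if and only if it holds for
those among these fields whose conductor has at most `r` prime factors. -/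
theorem result (p : ℕ) [Fact p.Prime] (P : Set ℕ) (hP : ∀ ℓ ∈ P, ℓ.Prime ∧ ℓ ≠ p) (a : ℕ → ℤ) (r : ℕ)
    (θ : ∀ m : ℕ, MonoidAlgebra ℤ_[p] (ZMod m)ˣ)
    (b : ∀ m : ℕ, Matrix (Fin r) (Fin r) (MonoidAlgebra ℤ_[p] (ZMod m)ˣ)) (c : ℕ → ℤ_[p])
    (H : IsMazurTate p P a θ b c) :
    (∀ m ∈ Conductors P, ∀ (G : Type) [CommGroup G] (q : (ZMod m)ˣ →* G), IsField p m q →
      Congruence θ b c m q) ↔
    ∀ m ∈ Conductors P, m.primeFactors.card ≤ r →
      ∀ (G : Type) [CommGroup G] (q : (ZMod m)ˣ →* G), IsField p m q → Congruence θ b c m q :=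
  ⟨fun h m hm _ G _ q hq => h m hm G q hq, fun h m hm G _ q hq => main hP H h m hm G q hq.pgroup⟩

end Pool.Agent.Results.MP_5deabe_nt.FewPrimesInConductor
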