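import Pool.Agent.Q5.MT.Kill
import Pool.Agent.Q5.MT.Mom

/-!
# The congruence of Mazur and Tate as a family of congruences between numbers

For an elliptic curve of rank `r < p`, the congruence `θ_F ≡ ± L R_F` modulo `I^(r+1)` (with
`θ_F ∈ I^r`) for an abelian field `F` of `p`-power degree and conductor `m` is equivalent to
congruences modulo powers of `p` for the power moments `∑ θ_m(u) χ(u)^j`, `j ≤ r`, of the coefficients
of `θ_m`, for the homomorphisms `χ` from `(Z/m)ˣ` to `Z/p^k` which belong to `F`.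
-/

set_option autoImplicit false

namespace Pool.Agent.Results.MP_5deabe_nt.PowerMoments

open Pool.Agent.Q5.MT

/-- **The congruence of Mazur and Tate in numbers.** Let `p` be a prime number, `r < p`, `m ≥ 1`,
`θ_m ∈ Z_p[(Z/m)ˣ]`, `b_m` an `r × r` matrix with entries in the augmentation ideal, `c_m ∈ Z_p`, and
let `q` be a homomorphism from `(Z/m)ˣ` onto a `p`-group `G = Gal(F/ℚ)`. The congruence of Mazur and
Tate for `F` holds if and only if for all `k` and all homomorphisms `χ` from `(Z/m)ˣ` to the additive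
group of `Z/p^k` which are trivial on the kernel of `q`
* `∑ θ_m(u) χ(u)^j = 0` in `Z/p^k` for `j < r`, and
* `∑ θ_m(u) χ(u)^r = r! c_m det(∑ b_m(i,j)(u) χ(u))` in `Z/p^k`. -/
theorem result (p : ℕ) [Fact p.Prime] (r : ℕ) (hr : r < p)
    (θ : ∀ m : ℕ, MonoidAlgebra ℤ_[p] (ZMod m)ˣ)
    (b : ∀ m : ℕ, Matrix (Fin r) (Fin r) (MonoidAlgebra ℤ_[p] (ZMod m)ˣ)) (c : ℕ → ℤ_[p])
    (m : ℕ) (hm : 0 < m) (hb : ∀ i j, b m i j ∈ augIdeal ℤ_[p] (ZMod m)ˣ)
    (G : Type) [CommGroup G] (q : (ZMod m)ˣ →* G) (hq : Function.Surjective q) (hG : IsPGroup p G) :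
    Congruence θ b c m q ↔
      ∀ (k : ℕ) (χ : (ZMod m)ˣ →* Multiplicative (ZMod (p ^ k))), q.ker ≤ χ.ker →
        (∀ j < r, moment χ j (θ m) = 0) ∧
        moment χ r (θ m) = (r.factorial : ZMod (p ^ k)) *
          (PadicInt.toZModPow k (c m) * Matrix.det fun i j => moment χ 1 (b m i j)) := by
  have hm0 : NeZero m := ⟨hm.ne'⟩
  have hfin : Finite G := Finite.of_surjective q hq
  set D := ((b m).map (push q)).det with hD
  have hlead : ∀ (k : ℕ) (χ : G →* Multiplicative (ZMod (p ^ k))),
      Lead χ r D (Matrix.det fun i j => moment (χ.comp q) 1 (b m i j)) := by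
    intro k χ
    have h := lead_det (χ := χ) ((b m).map (push q)) fun i j => push_mem_one q (hb i j)
    have e : (fun i j => moment χ 1 (((b m).map (push q)) i j)) =
        fun i j => moment (χ.comp q) 1 (b m i j) := by
      funext i j
      exact moment_push q χ 1 _
    rw [e] at h
    exact h
  constructor
  · rintro ⟨h1, h2⟩ k χ hχ
    obtain ⟨χ', hχ'⟩ : ∃ χ' : G →* Multiplicative (ZMod (p ^ k)), χ = χ'.comp q := by
      refine ⟨q.liftOfRightInverse _ (Function.rightInverse_surjInv hq) ⟨χ, hχ⟩, ?_⟩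
      refine MonoidHom.ext fun g => ?_
      exact (q.liftOfRightInverse_comp_apply _ (Function.rightInverse_surjInv hq) ⟨χ, hχ⟩ g).symm
    subst hχ'
    refine ⟨fun j hj => ?_, ?_⟩
    · rw [← moment_push]
      exact moment_zero χ' h1 j hj
    · have h3 := moment_zero χ' h2 r (Nat.lt_succ_self r)
      rw [moment_sub, moment_smul, (hlead k χ').2, moment_push, sub_eq_zero] at h3
      rw [h3]
      ring
  · intro h
    have h1 : ∀ (k : ℕ) (χ : G →* Multiplicative (ZMod (p ^ k))), _ := fun k χ =>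
      h k (χ.comp q) (fun u hu => by
        rw [MonoidHom.mem_ker] at hu ⊢
        rw [MonoidHom.comp_apply, hu, map_one])
    refine ⟨detect_mom hG hr.le _ fun k χ j hj => ?_, detect_mom hG hr _ fun k χ j hj => ?_⟩
    · rw [moment_push]
      exact (h1 k χ).1 j hj
    · rw [moment_sub, moment_smul, moment_push]
      rcases Nat.lt_succ_iff_lt_or_eq.1 hj with h2 | h2
      · rw [(h1 k χ).1 j h2, moment_zero χ (hlead k χ).1 j h2, mul_zero, sub_zero]
      · subst h2
        rw [(h1 k χ).2, (hlead k χ).2]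
        ring

end Pool.Agent.Results.MP_5deabe_nt.PowerMoments
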