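import Pool.Agent.Q45.ML.GR

/-!
# The Mazur-Tate congruence from smoothed sums of Frobenius traces, modulo powers of the augmentation ideal

`E/ℚ` has Frobenius traces `a ℓ` with roots `α ℓ 0, α ℓ 1` (`ℓ ∉ S`), `G` is a finite abelian group (the Galois group of `F`),
`φ ℓ ∈ G` the Frobenius, `L χ` the function `L_S(E, χ, s) = ∏_{ℓ ∉ S} (1 - a_ℓ χ(φ ℓ) ℓ^{-s} + χ(φ ℓ)² ℓ^{1-2s})⁻¹`, and
`θ ∈ ℂ[G]` the modular element, `χ(θ) = τ(χ) L_S(E, χ⁻¹, 1)/Ω`. For `γ > π/2` put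

`S_χ(T) = ∑_{ℓ ∉ S} ∑_{k ≥ 1} (χ(φ ℓ)^k (α_ℓ^k + β_ℓ^k)/(k ℓ^k)) e^{iγ k log ℓ/T} / Γ(1 + k log ℓ/T)`,
`Θ_T(g) = |G|⁻¹ ∑_χ χ(g)⁻¹ τ(χ) e^{S_{χ⁻¹}(T)}/Ω`.

Then `Θ_T = θ + O(1/T)`, and for every `ρ` and `n`: `θ - ρ ∈ I^n` (`I ⊂ ℤ_p[G]` the augmentation ideal) if and only if for
some `D` prime to `p` the elements `D (Θ_T - ρ)` come arbitrarily close, along one sequence, to the lattice of the elements of
`ℤ[G]` which lie in `I^n`.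
-/

set_option autoImplicit false

namespace Pool.Agent.Results.MP_5deabe_nt.PrimeSumsModAugmentation

open Filter Topology Asymptotics Pool.Agent.Q45.ML

variable {G : Type} [CommGroup G]

/-- the term at `(ℓ, k)`, `k = z.2 + 1`, of the smoothed sum of the twist by `χ` -/
noncomputable def term (S : Finset Nat.Primes) (α : Nat.Primes → Fin 2 → ℂ) (φ : Nat.Primes → G)
    (χ : G →* ℂˣ) (γ T : ℝ) (z : {ℓ : Nat.Primes // ℓ ∉ S} × ℕ) : ℂ :=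
  ((χ (φ z.1) : ℂ) ^ (z.2 + 1) * (α z.1 0 ^ (z.2 + 1) + α z.1 1 ^ (z.2 + 1))) /
      ((z.2 + 1) * (z.1 : ℂ) ^ (z.2 + 1)) *
    (Complex.exp ((γ * ((z.2 + 1) * Real.log (z.1 : ℝ) / T) : ℝ) * Complex.I) /
      (Real.Gamma (1 + (z.2 + 1) * Real.log (z.1 : ℝ) / T) : ℂ))

/-- the smoothed sum of the twist by `χ` -/
noncomputable def twist (S : Finset Nat.Primes) (α : Nat.Primes → Fin 2 → ℂ) (φ : Nat.Primes → G)
    (χ : G →* ℂˣ) (γ T : ℝ) : ℂ := ∑' z, term S α φ χ γ T z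

/-- the approximation `Θ_T` to the modular element -/
noncomputable def Theta [Fintype G] [Fintype (G →* ℂˣ)] (S : Finset Nat.Primes)
    (α : Nat.Primes → Fin 2 → ℂ) (φ : Nat.Primes → G) (τ : (G →* ℂˣ) → ℂ) (Ω : ℂ) (γ T : ℝ) (g : G) : ℂ :=
  (Fintype.card G : ℂ)⁻¹ * ∑ χ : G →* ℂˣ, (χ g : ℂ)⁻¹ * (τ χ * Complex.exp (twist S α φ χ⁻¹ γ T) / Ω)

/-- the augmentation ideal of `ℤ_p[G]` -/
noncomputable def augIdeal (p : ℕ) [Fact p.Prime] (G : Type) [CommGroup G] : Ideal (MonoidAlgebra ℤ_[p] G) :=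
  RingHom.ker (MonoidAlgebra.lift ℤ_[p] ℤ_[p] G (1 : G →* ℤ_[p]))

theorem result [Fintype G] [Fintype (G →* ℂˣ)] {p : ℕ} [Fact p.Prime] (S : Finset Nat.Primes)
    (a : Nat.Primes → ℤ) (α : Nat.Primes → Fin 2 → ℂ)
    (hα : ∀ ℓ ∉ S, α ℓ 0 + α ℓ 1 = a ℓ ∧ α ℓ 0 * α ℓ 1 = (ℓ : ℂ) ∧ ∀ j, ‖α ℓ j‖ ≤ (ℓ : ℝ) ^ (1 / 2 : ℝ))
    (φ : Nat.Primes → G) (L : (G →* ℂˣ) → ℂ → ℂ)
    (hmer : ∀ χ, ∀ σ : ℝ, 1 ≤ σ → MeromorphicAt (L χ) (σ : ℂ)) (han : ∀ χ, AnalyticAt ℂ (L χ) 1)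
    (hL : ∀ χ : G →* ℂˣ, ∀ s : ℂ, 3 / 2 < s.re → HasProd (fun ℓ : {ℓ : Nat.Primes // ℓ ∉ S} =>
      (1 - a ℓ * (χ (φ ℓ) : ℂ) * ((ℓ : Nat.Primes) : ℂ) ^ (-s) +
        (χ (φ ℓ) : ℂ) ^ 2 * ((ℓ : Nat.Primes) : ℂ) * (((ℓ : Nat.Primes) : ℂ) ^ (-s)) ^ 2)⁻¹) (L χ s))
    (τ : (G →* ℂˣ) → ℂ) (Ω : ℂ) (θ : G → ℂ)
    (hθ : ∀ χ : G →* ℂˣ, ∑ g, (χ g : ℂ) * θ g = τ χ * L χ⁻¹ 1 / Ω) {γ : ℝ} (hγ : Real.pi / 2 < γ) :
    (∀ χ, ∀ T : ℝ, 0 < T → Summable fun z => ‖term S α φ χ γ T z‖) ∧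
    (∀ g, (fun T : ℝ => Theta S α φ τ Ω γ T g - θ g) =O[atTop] (fun T : ℝ => 1 / T)) ∧
    ∀ (ρ : G → ℂ) (n : ℕ), GR.InIdeal (augIdeal p G ^ n) (fun g => θ g - ρ g) ↔
      ∃ D : ℕ, ¬ p ∣ D ∧ ∃ t : ℕ → ℝ, Tendsto t atTop atTop ∧ Tendsto (fun i => Metric.infDist
        (fun g => (D : ℂ) * (Theta S α φ τ Ω γ (t i) g - ρ g)) (GR.lattice (augIdeal p G ^ n)))
          atTop (𝓝 0) := by
  have hE : ∀ χ : G →* ℂˣ, Eul 2 (fun ℓ : {ℓ : Nat.Primes // ℓ ∉ S} => ((ℓ : Nat.Primes) : ℝ))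
      (fun ℓ j => (χ (φ ℓ) : ℂ) * α ℓ j) (1 / 2) 1 := fun χ =>
    ⟨zero_le_one, fun ℓ => by exact_mod_cast ℓ.1.2.two_le,
      fun σ hσ => (Nat.Primes.summable_rpow.2 (by linarith : -σ < -1)).subtype _, fun ℓ j => by
        rw [norm_mul, norm_char, one_mul]
        exact (hα ℓ.1 ℓ.2).2.2 j⟩
  have hterm : ∀ (χ : G →* ℂˣ) T z, term S α φ χ γ T z =
      sterm (fun ℓ : {ℓ : Nat.Primes // ℓ ∉ S} => ((ℓ : Nat.Primes) : ℝ))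
        (fun ℓ j => (χ (φ ℓ) : ℂ) * α ℓ j) ((1 : ℤ) : ℝ) γ T z := by
    intro χ T z
    unfold term sterm
    rw [Fin.sum_univ_two]
    congr 2
    · ring
    · have e : ((((z.2 : ℝ) + 1) * (((1 : ℤ) : ℝ)) : ℝ) : ℂ) = ((z.2 + 1 : ℕ) : ℂ) := by
        push_cast; ring
      rw [e, Complex.cpow_natCast]
      push_cast
      rfl
  have hS : ∀ (χ : G →* ℂˣ) T, smooth (fun ℓ : {ℓ : Nat.Primes // ℓ ∉ S} => ((ℓ : Nat.Primes) : ℝ))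
      (fun ℓ j => (χ (φ ℓ) : ℂ) * α ℓ j) ((1 : ℤ) : ℝ) γ T = twist S α φ χ γ T := by
    intro χ T
    unfold smooth twist
    simp only [hterm]
  have hval : ∀ χ : G →* ℂˣ, (fun T : ℝ => Complex.exp (twist S α φ χ γ T) - L χ 1) =O[atTop]
      (fun T : ℝ => 1 / T) := by
    intro χ
    have h1 := (hE χ).value (F := L χ) (s₀ := ((1 : ℤ) : ℝ)) (by norm_num)
      (fun x hx _ => hmer χ x (by exact_mod_cast hx))
      (fun s hs => by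
        refine (hL χ s (by linarith)).congr_fun fun ℓ => ?_
        have e1 := (hα ℓ.1 ℓ.2).1
        have e2 := (hα ℓ.1 ℓ.2).2.1
        rw [Fin.prod_univ_two, ← mul_inv, ← e1, ← e2]
        congr 1
        push_cast
        rw [← e2]
        ring) (by simpa using han χ) hγ
    simp only [hS] at h1
    simpa using h1
  have hrate : ∀ g, (fun T : ℝ => Theta S α φ τ Ω γ T g - θ g) =O[atTop] (fun T : ℝ => 1 / T) := by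
    intro g
    have h1 : (fun T : ℝ => ∑ χ : G →* ℂˣ, (Fintype.card G : ℂ)⁻¹ * (χ g : ℂ)⁻¹ * τ χ / Ω *
        (Complex.exp (twist S α φ χ⁻¹ γ T) - L χ⁻¹ 1)) =O[atTop] (fun T : ℝ => 1 / T) := by
      have h4 := IsBigO.sum (s := Finset.univ) fun (χ : G →* ℂˣ) _ =>
        (hval χ⁻¹).const_mul_left ((Fintype.card G : ℂ)⁻¹ * (χ g : ℂ)⁻¹ * τ χ / Ω)
      refine h4.congr_left fun T => ?_
      rw [Finset.sum_apply]
    refine h1.congr_left fun T => ?_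
    rw [GR.inversion hθ g]
    unfold Theta
    rw [← mul_sub, ← Finset.sum_sub_distrib, Finset.mul_sum]
    refine Finset.sum_congr rfl fun χ _ => ?_
    ring
  refine ⟨fun χ T hT => ?_, hrate, fun ρ n => ?_⟩
  · simp only [hterm]
    exact (hE χ).sterm_summable _ γ hT
  · exact GR.criterion (augIdeal p G ^ n) (fun g => tendsto_of_rate (hrate g)) ρ

end Pool.Agent.Results.MP_5deabe_nt.PrimeSumsModAugmentation
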